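import Pool.Agent.Helper250_Alloc.Arrival
import Pool.Agent.Helper250_Alloc.Bound

/-!
ARRIVAL reduces to the computation of a stable allocation with two men.
-/

set_option autoImplicit false

namespace Pool.Agent.Results.MP_7297fb_lc.ArrivalReduction

open Pool.Agent.Helper250_Alloc

/-- **ARRIVAL reduces to stable allocations.** For every switch graph on a finite vertex set `V`
(successors `s v false` and `s v true`, `none` being the destination) and every origin `o`, the
explicit instance `arrM s o`, `arrW` with two men and `4 |V|` women has M-natural-concave value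
functions satisfying (A), its domains for the men are bounded by `L = 2^|V|`, it has a stable
allocation, and in every stable allocation `x` the amount allocated to the first man and the women
`inl a` with `a` an arc into the destination is `1` if and only if the train starting at `o`
reaches the destination. -/
theorem result (V : Type) [Fintype V] [DecidableEq V] (s : V → Bool → Option V) (o : V) :
    (∀ i, CondA (arrM s o i)) ∧ (∀ i, MNat (arrM s o i)) ∧
    (∀ j, CondA (arrW (V := V) j)) ∧ (∀ j, MNat (arrW (V := V) j)) ∧
    (∀ i y, arrM s o i y ≠ ⊥ → ∀ j, y j ≤ ((2 ^ Fintype.card V : ℕ) : ℤ)) ∧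
    (∃ x, Stable (arrM s o) (arrW (V := V)) x) ∧
    ∀ x, Stable (arrM s o) (arrW (V := V)) x →
      (Reaches s o ↔
        ∑ a : V × Bool, (if s a.1 a.2 = none then x false (Sum.inl a) else 0) = 1) := by
  refine ⟨condA_M s o, mnat_M s o, condA_W, mnat_W, bound_M s o, ?_, fun x hx => ?_⟩
  · have : Nonempty (Women V) := ⟨Sum.inl (o, true)⟩
    obtain ⟨A, hA⟩ := main_nonempty (M := Bool) (W := Women V)
    obtain ⟨t, -, x, -, hx⟩ := hA (arrM s o, arrW (V := V))
      ⟨condA_M s o, mnat_M s o, condA_W, mnat_W⟩ _ (bound_M s o)
    exact ⟨x, hx⟩
  · rw [reaches_iff (flow_of_stable s o hx), arcsInto, Finset.sum_filter]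

end Pool.Agent.Results.MP_7297fb_lc.ArrivalReduction
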