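import Pool.Agent.Helper250_Alloc.One4

/-!
The general problem reduces to instances in which all agents but one are linear with a quota.
-/

set_option autoImplicit false

namespace Pool.Agent.Results.MP_7297fb_lc.OneNonlinearAgent

open Pool.Agent.Helper250_Alloc

/-- **One nonlinear agent suffices.** Let `fM`, `fW` be an arbitrary instance with
M-natural-concave value functions satisfying (A), let `B ≥ 0` bound all entries of the domains of
the men, and let `K, K' > 0` bound the values of single units relative to `0` (weakly for the men,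
strictly for the women). Then `oneM B K K' fM fW`, `oneW B` is an instance with `1 + 2|M||W|` men
and `4|M||W|` women, with M-natural-concave value functions satisfying (A) and domains of the men
bounded by `B`, in which all agents except the man `none` are linear (with weights 1 and 2) on the
points `y ≥ 0` with upper bounds in `{0, B}` and total amount at most `B`; and the stable
allocations of the original instance are exactly the differences
`x none (out e) - x none (out' e)` of two entries per pair `e = (i, j)`, for the stable allocations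
`x` of the new instance. -/
theorem result (M W : Type) [Fintype M] [DecidableEq M] [Fintype W] [DecidableEq W]
    (fM : M → (W → ℤ) → WithBot ℝ) (fW : W → (M → ℤ) → WithBot ℝ)
    (hAM : ∀ i, CondA (fM i)) (hMM : ∀ i, MNat (fM i))
    (hAW : ∀ j, CondA (fW j)) (hMW : ∀ j, MNat (fW j))
    (B : ℤ) (hB0 : 0 ≤ B) (hB : ∀ i y, fM i y ≠ ⊥ → ∀ j, y j ≤ B)
    (K K' : ℝ) (hK0 : 0 < K) (hK : ∀ i w, fM i (unit (some w)) ≤ fM i 0 + (K : WithBot ℝ))
    (hK0' : 0 < K') (hK' : ∀ j i, fW j (unit (some i)) < fW j 0 + (K' : WithBot ℝ)) :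
    (∀ m, CondA (oneM B K K' fM fW m)) ∧ (∀ m, MNat (oneM B K K' fM fW m)) ∧
    (∀ p, CondA (oneW (M := M) (W := W) B p)) ∧ (∀ p, MNat (oneW (M := M) (W := W) B p)) ∧
    (∀ m y, oneM B K K' fM fW m y ≠ ⊥ → ∀ p, y p ≤ B) ∧
    ∀ X : M → W → ℤ, Stable fM fW X ↔ ∃ x, Stable (oneM B K K' fM fW) (oneW B) x ∧
      X = fun i j => x none (false, ((i, j), false)) - x none (true, ((i, j), false)) := by
  refine ⟨oneM_condA hB0 hAM hAW, oneM_mnat hAM hMM hAW hMW hK, oneW_condA hB0, oneW_mnat,
    oneM_bound hB0 hAW, fun X => ⟨fun hX => ?_, ?_⟩⟩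
  · refine ⟨ext B fW X, ext_stable hAM hMM hAW hMW hB0 hB hX hK0 hK0' hK', ?_⟩
    funext i j
    exact (rec_ext (B := B) (fW := fW) X (i, j)).symm
  · rintro ⟨x, hx, rfl⟩
    exact stable_rec hx hAM hMM hAW hMW hK0 hK0' hK' hB

end Pool.Agent.Results.MP_7297fb_lc.OneNonlinearAgent
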