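import Pool.Agent.Helper250_Alloc.Bound

/-!
Stable allocations with M-natural-concave value functions can be found with a number of
comparisons of values that is polynomial in `|E|` and `log L`.
-/

set_option autoImplicit false

namespace Pool.Agent.Results.MP_7297fb_lc.PolyComparisons

open Pool.Agent.Helper250_Alloc

/-- For all finite sets `M` and `W` there is one adaptive algorithm which, for every instance in
which all value functions are M-natural-concave and satisfy (A), outputs a stable allocation after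
at most `200 (|E| + 1)^9 (⌊log₂ L⌋ + 1)^2` questions, each of them a comparison of the values of
one `f_k` at two points; here `L` is any upper bound for the entries of the points of `dom f_M`. -/
theorem result (M W : Type) [Fintype M] [DecidableEq M] [Fintype W] [DecidableEq W] :
    ∃ A : Algorithm M W,
      ∀ (fM : M → (W → ℤ) → WithBot ℝ) (fW : W → (M → ℤ) → WithBot ℝ),
        (∀ i, CondA (fM i)) → (∀ i, MNat (fM i)) → (∀ j, CondA (fW j)) → (∀ j, MNat (fW j)) →
        ∀ L : ℕ, (∀ i y, fM i y ≠ ⊥ → ∀ j, y j ≤ (L : ℤ)) →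
          ∃ t ≤ 200 * (Fintype.card M * Fintype.card W + 1) ^ 9 * (Nat.log 2 L + 1) ^ 2,
            ∃ x, A.run (answer fM fW) t [] = some x ∧ Stable fM fW x := by
  by_cases h : Nonempty M ∧ Nonempty W
  · obtain ⟨hM, hW⟩ := h
    obtain ⟨A, hA⟩ := main_nonempty (M := M) (W := W)
    exact ⟨A, fun fM fW h1 h2 h3 h4 L hL => hA (fM, fW) ⟨h1, h2, h3, h4⟩ L hL⟩
  · refine ⟨fun _ => .inr (fun _ _ => 0), fun fM fW h1 h2 h3 h4 L hL => ?_⟩
    refine ⟨0, Nat.zero_le _, fun _ _ => 0, rfl, ⟨fun i => (h1 i).zero_mem,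
      fun j => (h3 j).zero_mem⟩, ?_⟩
    rintro (⟨i, y, hy, hlt⟩ | ⟨j, y, hy, hlt⟩ | ⟨i, j, -⟩)
    · have : IsEmpty W := not_nonempty_iff.1 (fun hW => h ⟨⟨i⟩, hW⟩)
      have hy0 : y = (fun _ => 0) := Subsingleton.elim _ _
      rw [hy0] at hlt
      exact lt_irrefl _ hlt
    · have : IsEmpty M := not_nonempty_iff.1 (fun hM => h ⟨hM, ⟨j⟩⟩)
      have hy0 : y = (fun _ => 0) := Subsingleton.elim _ _
      rw [hy0] at hlt
      exact lt_irrefl _ hlt
    · exact h ⟨⟨i⟩, ⟨j⟩⟩

end Pool.Agent.Results.MP_7297fb_lc.PolyComparisons
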